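import Mathlib
import Pool.Agent.V1158.SM.No
import Pool.Agent.V1158.SM.OfModel
import Pool.Agent.TH922.C8_DAT
import Pool.Agent.TH551.C8_XM1
import Pool.Agent.TH921.FL_GK
import Pool.Agent.Y131.IF.NoLC

/-!
# A compact Kähler gklt pair with `K + β` pseudo-effective and without log terminal model

The pair `(X, β)` of the theorem is a projective (hence compact Kähler) threefold gklt pair with
`B = 0` and with `K_X + β_X` pseudo-effective.

A log terminal model `Y` of `(X, β)` is a normal compact complex space that is bimeromorphic to the
projective variety `X`. So `Y` is a Moishezon space, and by Artin's theorem it is a normal proper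
algebraic space, which need not be projective or a scheme. It has an étale covering by normal affine
varieties `U i`, and it gives a `SpaceModel` of the function field `K` of `X`.

* `etale`. Let `v'` be a discrete valuation of the function field `L i` of `U i` with a centre on
  `U i`, and let `v` be its restriction to `K`. The fibre product of `Spec O_v` and `U i` over `Y` is
  étale over `Spec O_v`, integral, with function field `L i`, and `v'` has a centre on it. So `v'` is
  unramified over `v`.
* `cover`. Let `v` be a discrete valuation of `K`. As `Y` is proper, there is a morphism from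
  `Spec O_v` to `Y`. For some `i`, the fibre product of `Spec O_v` and `U i` over `Y` has a point over
  the closed point of `Spec O_v`; its local ring is the ring of a valuation `v'`.

As `Y` is strongly `ℚ`-factorial, all Weil divisors on `Y` are `ℚ`-Cartier (by GAGA, in the étale
topology of the algebraic space), so `K_Y + β_Y` is the class of an `ℝ`-Cartier `ℝ`-divisor; its
pull-backs are given by the function `E`. If it is nef, so is its pull-back to a projective variety
that dominates `Y`. The log discrepancy of the divisor `w` with respect to `(X, β)` and `(Y, β)` is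
`1 + K(w) + β(w) - D w` and `1 + K(w) + β(w) - E w`, so the last condition of a log terminal model is
`E w < D w` for the contracted prime divisors `w`. The theorem excludes even the models with
`E w ≤ D w`.
-/

set_option autoImplicit false

namespace Pool.Agent.Results.MP_c8c12f_ag.NoLogTerminalModel

open Pool.Agent.H436R3.Fol Pool.Agent.TH202 Pool.Agent.V1158.SM

/-- **There is a projective threefold gklt pair `(X, β)` with `K_X + β_X` pseudo-effective that has
no log terminal model, projective or not.** -/
theorem result : ∃ (K : Type) (_ : Field K) (_ : Algebra ℂ K) (_ : Algebra.EssFiniteType ℂ K)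
    (T : Foliation K 3) (_ : T.space = ⊤) (X : Model K) (β D : DVal K → ℝ),
    IsGklt T X 0 β D ∧ IsPsef X D ∧
    ∀ (Y : SpaceModel K) (E : DVal K → ℝ), ¬ IsWeakModel T X 0 β D Y E := by
  obtain ⟨K, iF, iA, iE, ⟨d⟩⟩ := Pool.Agent.TH922.C8_DAT.exists_dat
  obtain ⟨T, hT, hTs⟩ := Pool.Agent.TH922.C8_DAT.exists_fol d
  have h := Pool.Agent.TH551.C8_XM1.xi_alg d
  obtain ⟨s, hfil, -, -⟩ := exists_sq2 d
  refine ⟨K, iF, iA, iE, T, hTs, M3 s 3 (by omega), bt s, Dn s 3, ?_, ?_, fun Y E => ?_⟩
  · exact Pool.Agent.TH921.FL_GK.gk h s hfil T hT 3 (by omega)
  · exact Y131.IF.psef_Dn h s hfil 3 (by omega)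
  · exact no_model_space h s hfil T hT 3 (by omega) Y E

/-- In particular there is no projective weak log canonical model. -/
theorem no_projective {K : Type} [Field K] [Algebra ℂ K] [Algebra.EssFiniteType ℂ K]
    {T : Foliation K 3} {X : Model K} {β D : DVal K → ℝ}
    (h : ∀ (Y : SpaceModel K) (E : DVal K → ℝ), ¬ IsWeakModel T X 0 β D Y E)
    (Y : Model K) (E : DVal K → ℝ) : ¬ Y181.IsWeakLCModel T X 0 β D Y E :=
  fun h1 => h (ofModel Y) E (weak_of_projective h1)

end Pool.Agent.Results.MP_c8c12f_ag.NoLogTerminalModel
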